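import Mathlib
import Pool.Agent.H523R3.TransMain

set_option autoImplicit false

/-!
# MP_ff81d5_co, Q1: the asymptotic transversal ratios tend to one

The definitions of `tauP`, `tauS` and of all notions they use are in `Pool.Agent.H523R3.TransDefs`.
-/

namespace Pool.Agent.Results.MP_ff81d5_co.LimitOne

open Pool.Agent.H523R3.Trans

/-- `τ^P_d → 1` and `τ^S_d → 1` as `d → ∞`; more precisely both are equal to `1` for all
`d ≥ 4`. -/
theorem result : Filter.Tendsto tauP Filter.atTop (nhds 1) ∧
    Filter.Tendsto tauS Filter.atTop (nhds 1) ∧ ∀ d : ℕ, 4 ≤ d → tauP d = 1 ∧ tauS d = 1 := by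
  refine ⟨?_, ?_, fun d hd => ⟨tauP_eq_one hd, tauS_eq_one hd⟩⟩
  · refine tendsto_const_nhds.congr' ?_
    filter_upwards [Filter.eventually_ge_atTop 4] with d hd
    exact (tauP_eq_one hd).symm
  · refine tendsto_const_nhds.congr' ?_
    filter_upwards [Filter.eventually_ge_atTop 4] with d hd
    exact (tauS_eq_one hd).symm

end Pool.Agent.Results.MP_ff81d5_co.LimitOne
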