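import Mathlib
import Pool.Agent.V11153.Tube

set_option autoImplicit false

/-!
# MP_ff81d5_co, Q2: the asymptotic transversal ratios are weakly increasing

The definitions of `tauP`, `tauS` and of all notions they use are in `Pool.Agent.H523R3.TransDefs`.
-/

namespace Pool.Agent.Results.MP_ff81d5_co.Monotone

open Pool.Agent.H523R3.Trans

/-- The sequences `τ^P_d` and `τ^S_d`, `d ≥ 2`, are weakly increasing. -/
theorem result : ∀ d : ℕ, 2 ≤ d → tauP d ≤ tauP (d + 1) ∧ tauS d ≤ tauS (d + 1) :=
  Pool.Agent.V11153.Tube.monotone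

end Pool.Agent.Results.MP_ff81d5_co.Monotone
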